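import Pool.Agent.Q208.FTM.Auto

/-!
# The state count of the shifted Fibonacci-Thue-Morse sequence is not of order `c`
-/

set_option autoImplicit false

open Real

namespace Pool.Agent.Results.MP_0deb22_lc.SublinearStates

open Pool.Agent.Q208.FTM

/-- the Fibonacci-Thue-Morse sequence: number of ones of the Fibonacci (Zeckendorf) representation
modulo two -/
def t (i : ℕ) : ℕ := (Nat.zeckendorf i).length % 2

/-- some Fibonacci-DFAO with `k` states generates the sequence shifted by `c` -/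
def HasStates (c k : ℕ) : Prop := ∃ M : DFAO k, Generates M (fun i => t (i + c))

/-- the least number of states of a Fibonacci-DFAO generating the sequence shifted by `c` -/
noncomputable def S (c : ℕ) : ℕ := sInf {k | HasStates c k}

lemma pow_le (n : ℕ) (hn : 1 ≤ n) : goldenRatio ^ n ≤ goldenRatio ^ 2 * Nat.fib n := by
  have h1 := phi_gt
  have h2 := phi_sq
  obtain ⟨k, rfl⟩ : ∃ k, n = k + 1 := ⟨n - 1, by omega⟩
  induction k using Nat.twoStepInduction with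
  | zero =>
    simp only [zero_add, pow_one, Nat.fib_one, Nat.cast_one, mul_one, sq]
    nlinarith
  | one => simp
  | more n ih1 ih2 =>
    have e : goldenRatio ^ (n + 2 + 1) = goldenRatio ^ (n + 1 + 1) + goldenRatio ^ (n + 1) := by
      have : goldenRatio ^ (n + 2 + 1) = goldenRatio ^ (n + 1) * (goldenRatio * goldenRatio) := by
        ring
      rw [this, h2]; ring
    have e2 : (Nat.fib (n + 2 + 1) : ℝ) = Nat.fib (n + 1) + Nat.fib (n + 1 + 1) := by
      rw [show n + 2 + 1 = n + 1 + 2 from by ring, Nat.fib_add_two]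
      push_cast; ring
    rw [e, e2, mul_add]
    linarith [ih1 (by omega), ih2 (by omega)]

/-- a power saving for infinitely many shifts -/
lemma power_saving : ∃ δ C : ℝ, 0 < δ ∧ 0 < C ∧ ∀ c₀ : ℕ, ∃ c : ℕ, c₀ ≤ c ∧ ∃ k : ℕ,
    HasStates c k ∧ (k : ℝ) ≤ C * (c : ℝ) ^ (1 - δ) := by
  have h1 := phi_gt
  obtain ⟨a, ha⟩ : ∃ a : ℝ, a = goldenRatio ^ 15 := ⟨_, rfl⟩
  have ha2 : 2 ≤ a := by
    have : goldenRatio ^ 2 ≤ a := by rw [ha]; exact pow_le_pow_right₀ (by linarith) (by norm_num)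
    rw [Real.goldenRatio_sq] at this
    linarith
  obtain ⟨b, hb⟩ : ∃ b : ℝ, b = Real.logb a (a - 1) := ⟨_, rfl⟩
  have hb0 : 0 ≤ b := by rw [hb]; exact Real.logb_nonneg (by linarith) (by linarith)
  have hb1 : b < 1 := by
    rw [hb, Real.logb_lt_iff_lt_rpow (by linarith) (by linarith), Real.rpow_one]
    linarith
  have hab : a ^ b = a - 1 := by
    rw [hb, Real.rpow_logb (by linarith) (by linarith) (by linarith)]
  refine ⟨1 - b, 8 * goldenRatio * (goldenRatio ^ 2) ^ b, by linarith, by positivity, fun c₀ => ?_⟩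
  have hfib : 15 * (c₀ + 1) ≤ Nat.fib (15 * (c₀ + 1)) := Nat.le_fib_self (by omega)
  obtain ⟨k, M, hM, hk⟩ := states_le (c₀ + 1) (by omega)
  refine ⟨Nat.fib (15 * (c₀ + 1)), by omega, k, ⟨M, hM⟩, ?_⟩
  have h3 := pow_le (15 * (c₀ + 1)) (by omega)
  have h4 : (goldenRatio ^ 15 - 1) ^ (c₀ + 1) = (goldenRatio ^ (15 * (c₀ + 1))) ^ b := by
    rw [← ha, ← hab, pow_mul, ← ha, ← Real.rpow_natCast, ← Real.rpow_natCast, ← Real.rpow_mul
      (by linarith), ← Real.rpow_mul (by linarith), mul_comm]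
  have h5 : (goldenRatio ^ (15 * (c₀ + 1))) ^ b ≤ (goldenRatio ^ 2) ^ b *
      ((Nat.fib (15 * (c₀ + 1)) : ℕ) : ℝ) ^ b := by
    rw [← Real.mul_rpow (by positivity) (by positivity)]
    exact Real.rpow_le_rpow (by positivity) h3 hb0
  have e : 1 - (1 - b) = b := by ring
  rw [e]
  calc (k : ℝ) ≤ 8 * ((goldenRatio ^ 15 - 1) ^ (c₀ + 1) * goldenRatio) := hk
    _ = 8 * goldenRatio * ((goldenRatio ^ (15 * (c₀ + 1))) ^ b) := by rw [h4]; ring
    _ ≤ 8 * goldenRatio * ((goldenRatio ^ 2) ^ b * ((Nat.fib (15 * (c₀ + 1)) : ℕ) : ℝ) ^ b) :=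
        mul_le_mul_of_nonneg_left h5 (by positivity)
    _ = _ := by ring

/-- **`S(c)` is not bounded below by a multiple of `c`.** For all `ε > 0` there are arbitrarily
large `c` for which at most `ε c` states suffice; in particular there are no `κ > 0` and `c₀` with
`S(c) ≥ κ c` for all `c ≥ c₀`. There is even a power saving for arbitrarily large `c`. -/
theorem result :
    (∃ δ C : ℝ, 0 < δ ∧ 0 < C ∧ ∀ c₀ : ℕ, ∃ c : ℕ, c₀ ≤ c ∧ ∃ k : ℕ,
      HasStates c k ∧ (k : ℝ) ≤ C * (c : ℝ) ^ (1 - δ)) ∧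
    (∀ ε : ℝ, 0 < ε → ∀ c₀ : ℕ, ∃ c : ℕ, c₀ ≤ c ∧ ∃ k : ℕ, HasStates c k ∧ (k : ℝ) ≤ ε * c) ∧
    ¬ ∃ κ : ℝ, 0 < κ ∧ ∃ c₀ : ℕ, ∀ c : ℕ, c₀ ≤ c → κ * c ≤ S c := by
  have main : ∀ ε : ℝ, 0 < ε → ∀ c₀ : ℕ, ∃ c : ℕ, c₀ ≤ c ∧ 0 < c ∧ ∃ k : ℕ, HasStates c k ∧
      (k : ℝ) ≤ ε * c := by
    intro ε hε c₀
    have h1 := phi_gt
    have hP : (1 : ℝ) ≤ goldenRatio ^ 15 := one_le_pow₀ (by linarith)
    obtain ⟨r, hr⟩ : ∃ r : ℝ, r = (goldenRatio ^ 15 - 1) / goldenRatio ^ 15 := ⟨_, rfl⟩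
    have hr0 : 0 ≤ r := by rw [hr]; exact div_nonneg (by linarith) (by linarith)
    have hr1 : r < 1 := by rw [hr, div_lt_one (by linarith)]; linarith
    have hr2 : goldenRatio ^ 15 - 1 = r * goldenRatio ^ 15 := by
      rw [hr]; field_simp
    obtain ⟨N, hN⟩ := exists_pow_lt_of_lt_one
      (show 0 < ε / (8 * goldenRatio * goldenRatio ^ 2) by positivity) hr1
    obtain ⟨q, hq⟩ : ∃ q, q = max N (c₀ + 1) := ⟨_, rfl⟩
    have hq1 : N ≤ q := by rw [hq]; exact le_max_left _ _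
    have hq2 : c₀ + 1 ≤ q := by rw [hq]; exact le_max_right _ _
    have hfib : 15 * q ≤ Nat.fib (15 * q) := Nat.le_fib_self (by omega)
    obtain ⟨k, M, hM, hk⟩ := states_le q (by omega)
    refine ⟨Nat.fib (15 * q), by omega, by omega, k, ⟨M, hM⟩, ?_⟩
    have h2 : r ^ q ≤ ε / (8 * goldenRatio * goldenRatio ^ 2) :=
      (pow_le_pow_of_le_one hr0 hr1.le hq1).trans hN.le
    have h3 := pow_le (15 * q) (by omega)
    have h4 : (goldenRatio ^ 15 - 1) ^ q = r ^ q * goldenRatio ^ (15 * q) := by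
      rw [hr2, mul_pow, ← pow_mul]
    calc (k : ℝ) ≤ 8 * ((goldenRatio ^ 15 - 1) ^ q * goldenRatio) := hk
      _ = 8 * goldenRatio * (r ^ q * goldenRatio ^ (15 * q)) := by rw [h4]; ring
      _ ≤ 8 * goldenRatio * (ε / (8 * goldenRatio * goldenRatio ^ 2) *
            (goldenRatio ^ 2 * Nat.fib (15 * q))) := by
          refine mul_le_mul_of_nonneg_left ?_ (by positivity)
          exact mul_le_mul h2 h3 (by positivity) (by positivity)
      _ = ε * (Nat.fib (15 * q) : ℕ) := by field_simp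
  refine ⟨power_saving, fun ε hε c₀ => ?_, ?_⟩
  · obtain ⟨c, h1, -, h2⟩ := main ε hε c₀
    exact ⟨c, h1, h2⟩
  · rintro ⟨κ, hκ, c₀, h⟩
    obtain ⟨c, h1, h0, k, h2, h3⟩ := main (κ / 2) (by positivity) c₀
    have h4 := h c h1
    have h5 : S c ≤ k := Nat.sInf_le h2
    have h6 : (S c : ℝ) ≤ k := by exact_mod_cast h5
    have h7 : (0 : ℝ) < c := by exact_mod_cast h0
    nlinarith

end Pool.Agent.Results.MP_0deb22_lc.SublinearStates
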